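import Pool.Agent.Helper1.RK.StE

/-! # Project RK: squares in separated variables (SEP) -/

set_option autoImplicit false

namespace Pool.Agent.Helper41.RK

open Pool.Agent.Helper1.RK

theorem pSEP : StSEP := by
  intro F K _ _ _ _ I X pd deg lc hV S
  classical
  induction S using Finset.induction_on with
  | empty =>
    intro h h' hh hh' _ h2 hsq
    obtain ⟨c, hc⟩ := hV.const h' (fun i => h2 i (by simp))
    refine ⟨c, ?_, ?_⟩
    · rintro rfl
      apply hh'
      rw [hc, map_zero]
    · rw [← hc, mul_comm]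
      exact hsq
  | insert z S hz ih =>
    intro h h' hh hh' h1 h2 hsq
    obtain ⟨q, hq⟩ := hsq
    have hq0 : q ≠ 0 := by
      rintro rfl
      rw [mul_zero] at hq
      exact mul_ne_zero hh hh' hq
    have hz1 : pd z h = 0 := h1 z (Finset.mem_insert_self z S)
    refine ih h (lc z h') hh (hV.lc_ne z h' hh')
      (fun y hy => h1 y (Finset.mem_insert_of_mem hy)) (fun y hy => ?_) ⟨lc z q, ?_⟩
    · by_cases hyz : y = z
      · rw [hyz]
        exact hV.lc_pd z h'
      · exact hV.lc_pd' z y h' (h2 y (by simp [hyz, hy]))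
    · rw [← hV.lc_mul z q q hq0 hq0, ← hq, hV.lc_mul z h h' hh hh', (hV.deg_pd z h hh hz1).2]

end Pool.Agent.Helper41.RK
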